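import Pool.Agent.Lib.MP_8d3748_co.Leaf
import Pool.Agent.Lib.MP_8d3748_co.H
import Pool.Agent.Lib.MP_8d3748_co.Data1

namespace Pool.Agent.Results.MP_8d3748_co.Lower

open Pool.Agent.Lib.MP_8d3748_co

theorem result (α : ℝ) (h2 : 2 ≤ α) (hα : α ≤ 3.245) :
    ∃ c : ℝ, 0 < c ∧ ∃ N : ℕ, ∀ n ≥ N, ∀ G : Net (Fin n), G.Optimal α → c * n ≤ G.leaves := by
  obtain ⟨K, hK, hH⟩ := ach_H (show (0 : ℝ) < 1 / 100000 by norm_num)
  refine ⟨1 / 1000000, by norm_num, 2000000 * K, fun n hn G hG ↦ ?_⟩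
  have hK' : (0 : ℝ) < K := by exact_mod_cast hK
  have hn' : (2000000 : ℝ) * K ≤ n := by exact_mod_cast hn
  set ρ : ℝ := (α / 2 - 1) * n / (900001 / 100000 * K) with hρ
  have hρ0 : 0 ≤ ρ := by
    have : 0 ≤ α / 2 - 1 := by linarith
    positivity
  have hρK : ρ * K = (α / 2 - 1) * n / (900001 / 100000) := by rw [hρ]; field_simp
  have h3 := mul_le_mul_of_nonneg_right (Nat.floor_le hρ0) hK'.le
  have h4 := mul_le_mul_of_nonneg_right (Nat.lt_floor_add_one ρ).le hK'.le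
  set r := ⌊ρ⌋₊
  have hn0 : (0 : ℝ) ≤ n := Nat.cast_nonneg _
  have hαn : α * n ≤ 3.245 * n := mul_le_mul_of_nonneg_right hα hn0
  have hle : r * (14 * K) ≤ n := by
    have : (r : ℝ) * (14 * K) ≤ n := by nlinarith
    exact_mod_cast this
  have h5 := (hH.nsmul r).add (ach_leaves (n - r * (14 * K)))
  rw [Nat.add_sub_cancel' hle, Nat.cast_sub hle] at h5
  push_cast at h5
  have h6 := (hG.rep (by omega) h5 (by nlinarith)).lower cert1_valid
  have h7 : (G.nl : ℝ) ≤ G.leaves := by exact_mod_cast G.nl_le.1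
  have h8 := hG.1
  simp only [cert1, Fintype.card_fin] at h6
  push_cast at h6
  nlinarith

end Pool.Agent.Results.MP_8d3748_co.Lower
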