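import Pool.Agent.Lib.MP_8d3748_co.Leaf
import Pool.Agent.Lib.MP_8d3748_co.H
import Pool.Agent.Lib.MP_8d3748_co.Data2

namespace Pool.Agent.Results.MP_8d3748_co.Upper

open Pool.Agent.Lib.MP_8d3748_co

theorem exists_inf {α : ℝ} (hα : 2 ≤ α) : ∃ b : ℝ, 0 ≤ b ∧ 83187 / 50000 - 341 / 1000 * α ≤ b ∧
    (∀ N X, Ach N (α * N / 2) X → b * N ≤ X) ∧
    ∀ η > 0, ∃ N : ℕ, ∀ n : ℕ, Ach n (α * n / 2) ((b + η) * n + N) := by
  set S : Set ℝ := {x | ∃ N : ℕ, 0 < N ∧ Ach N (α * N / 2) (x * N)} with hS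
  have hne : S.Nonempty := ⟨1, 1, one_pos, (ach_leaves 1).mono (by push_cast; linarith) (by simp)⟩
  have h0 : ∀ x ∈ S, 0 ≤ x := by
    rintro x ⟨N, hN, G, -, h⟩
    exact nonneg_of_mul_nonneg_left h.nonneg (by exact_mod_cast hN)
  have hbd : BddBelow S := ⟨0, h0⟩
  refine ⟨sInf S, le_csInf hne h0, le_csInf hne ?_, fun N X h ↦ ?_, fun η hη ↦ ?_⟩
  · rintro x ⟨N, hN, G, h1, h⟩
    have h2 := h.lower cert2_valid
    simp only [cert2, Fintype.card_fin] at h2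
    push_cast at h2
    have hN' : (0 : ℝ) < N := by exact_mod_cast hN
    refine le_of_mul_le_mul_right ?_ hN'
    linarith
  · rcases Nat.eq_zero_or_pos N with rfl | hN
    · obtain ⟨G, -, h⟩ := h
      simpa using h.nonneg
    have hN' : (0 : ℝ) < N := by exact_mod_cast hN
    rw [← le_div_iff₀ hN']
    exact csInf_le hbd ⟨N, hN, by rwa [div_mul_cancel₀ _ hN'.ne']⟩
  · obtain ⟨x, hx, hlt⟩ := exists_lt_of_csInf_lt hne (lt_add_of_pos_right (sInf S) hη)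
    have hx0 := h0 x hx
    obtain ⟨N, hN, h⟩ := hx
    refine ⟨N, fun n ↦ ?_⟩
    have h1 := (h.nsmul (n / N)).add (ach_leaves (n % N))
    have h2 : n / N * N + n % N = n := Nat.div_add_mod' n N
    rw [h2] at h1
    have h3 : ((n / N : ℕ) : ℝ) * N + (n % N : ℕ) = n := by exact_mod_cast h2
    have h4 : ((n % N : ℕ) : ℝ) ≤ N := by exact_mod_cast (Nat.mod_lt n hN).le
    have h5 : (0 : ℝ) ≤ (n % N : ℕ) := Nat.cast_nonneg _
    have h6 : (0 : ℝ) ≤ n := Nat.cast_nonneg _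
    refine h1.mono ?_ ?_
    · rw [← h3]
      nlinarith
    · have := mul_le_mul_of_nonneg_right hlt.le h6
      have := mul_nonneg hx0 h5
      nlinarith

theorem result (α : ℝ) (hα : 3.308 ≤ α) (ε : ℝ) (hε : 0 < ε) :
    ∃ N : ℕ, ∀ n ≥ N, ∀ G : Net (Fin n), G.Optimal α → (G.leaves : ℝ) ≤ ε * n := by
  obtain ⟨K, hK, hH⟩ := ach_H (show (0 : ℝ) < 1 / 100000 by norm_num)
  obtain ⟨b, hb0, hb, h1, h2⟩ := exists_inf (show 2 ≤ α by linarith)
  have hK' : (0 : ℝ) < K := by exact_mod_cast hK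
  set D : ℝ := 7 * α - (23 + 1 / 100000) with hD
  set Y : ℝ := 761061 / 100000 + 1 / 100000 - 14 * b with hY
  have hD0 : 0 < D := by rw [hD]; linarith
  have hY0 : 0 ≤ Y := by
    have := h1 _ _ (hH.mono (by push_cast; nlinarith) le_rfl)
    push_cast at this
    refine nonneg_of_mul_nonneg_left ?_ hK'
    rw [hY]
    linarith
  set δ : ℝ := 1 - b - (α / 2 - 1) / D * Y with hδ
  have hδ0 : 0 < δ := by
    rw [hδ, sub_pos, div_mul_eq_mul_div, div_lt_iff₀ hD0, hD, hY]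
    nlinarith
  obtain ⟨N, hN⟩ := h2 (ε * δ / 2) (by positivity)
  obtain ⟨N', hN'⟩ := exists_nat_gt ((N + Y * K + δ) / (ε * δ / 2))
  rw [div_lt_iff₀ (by positivity)] at hN'
  refine ⟨N' + 1, fun n hn G hG ↦ ?_⟩
  have hn' : (N' : ℝ) ≤ n := by exact_mod_cast (by omega : N' ≤ n)
  have h3 := (hG.rep (by omega) (hN n) le_rfl).remove
  have hl := G.nl_le_card
  rw [Fintype.card_fin] at h3 hl
  have hl0 : (0 : ℝ) ≤ G.nl := Nat.cast_nonneg _
  set ρ : ℝ := (α / 2 - 1) / D * G.nl / K with hρ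
  have hρ0 : 0 ≤ ρ := by
    have : 0 ≤ α / 2 - 1 := by linarith
    positivity
  have hρK : ρ * K = (α / 2 - 1) / D * G.nl := by rw [hρ]; field_simp
  have hρD : ρ * K * D = (α / 2 - 1) * G.nl := by rw [hρ]; field_simp
  have h4 := mul_le_mul_of_nonneg_right
    (mul_le_mul_of_nonneg_right (Nat.le_ceil ρ) hK'.le) hD0.le
  have h5 := mul_le_mul_of_nonneg_right
    (mul_le_mul_of_nonneg_right (Nat.ceil_lt_add_one hρ0).le hK'.le) hY0
  set r := ⌈ρ⌉₊
  have h6 := hG.1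
  have h7 := h1 _ _ ((h3.add (hH.nsmul r)).mono (by
    push_cast [Nat.cast_sub hl]
    rw [hρD, hD] at h4
    linarith) le_rfl)
  push_cast [Nat.cast_sub hl] at h7
  have h8 : (G.leaves : ℝ) ≤ G.nl + 1 := by exact_mod_cast G.nl_le.2
  have h9 : δ * G.nl ≤ ε * δ / 2 * n + N + Y * K := by
    rw [add_mul, add_mul, hρK] at h5
    have e1 : δ * G.nl = (1 - b) * G.nl - (α / 2 - 1) / D * G.nl * Y := by rw [hδ]; ring
    have e2 : (r : ℝ) * K * Y = r * ((761061 / 100000 + 1 / 100000) * K) - b * (r * (14 * K)) := by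
      rw [hY]; ring
    linarith
  have h10 := mul_le_mul_of_nonneg_right hn' (show 0 ≤ ε * δ / 2 by positivity)
  refine le_of_mul_le_mul_left ?_ hδ0
  nlinarith

end Pool.Agent.Results.MP_8d3748_co.Upper
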